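import Pool.Agent.Q257.EX.RSQ
import Pool.Agent.Q122.MB.EBL

set_option autoImplicit false

/-! Project EX: job EBX. -/

namespace Pool.Agent.Q257.EX

open Finset Pool.Agent.Q122.FM Pool.Agent.Q122.MB Pool.Agent.Q122.EX Pool.Agent.H306R2.RZ

/-- the sum of the values over the squares divisible by `b` -/
noncomputable def GG (e : ℤ) (a B N d : ℕ) (z : ℝ) (b : ℕ) : ℝ :=
  ∑ m ∈ (Icc 1 (N * B)).filter (fun m => Odd m ∧ IsSquare m),
    if b ∣ m ∧ m / b ≤ N then js (e * (d : ℤ)) m *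
      (1 / Real.sqrt ((m / b : ℕ) : ℝ) * IG a (((m / b : ℕ) : ℝ) ^ 2 * z)) else 0

theorem EBS_eq (e : ℤ) (a : ℕ) (β : ℕ → ℝ) (B N d : ℕ) (z : ℝ) :
    EBS e a β B N d z = ∑ b ∈ Icc 1 B, β b * GG e a B N d z b := by
  unfold EBS GG cB
  simp only [mul_sum]
  rw [sum_comm]
  apply sum_congr rfl
  intro m _
  rw [sum_filter]
  apply sum_congr rfl
  intro b _
  split_ifs <;> ring

theorem term_nonneg {e : ℤ} (he : e = 1 ∨ e = -1 ∨ e = 2 ∨ e = -2) (a B N d : ℕ) {z : ℝ}
    (hz : 0 < z) (b m : ℕ) (hm : m ∈ (Icc 1 (N * B)).filter (fun m => Odd m ∧ IsSquare m)) :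
    0 ≤ if b ∣ m ∧ m / b ≤ N then js (e * (d : ℤ)) m *
      (1 / Real.sqrt ((m / b : ℕ) : ℝ) * IG a (((m / b : ℕ) : ℝ) ^ 2 * z)) else 0 := by
  split_ifs
  swap
  · exact le_rfl
  rw [mem_filter, mem_Icc] at hm
  obtain ⟨⟨h1, h2⟩, h3, u, hu⟩ := hm
  have hIG := Pool.Agent.Q153.FM.Sq.IG_nonneg a
    (show (0 : ℝ) ≤ ((m / b : ℕ) : ℝ) ^ 2 * z by positivity)
  apply mul_nonneg _ (mul_nonneg (by positivity) hIG)
  have huo : Odd u := by
    rw [hu] at h3
    exact (Nat.odd_mul.1 h3).1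
  have := js_sq he d 1 u huo one_ne_zero
  rw [one_mul] at this
  rw [hu, ← sq, this]
  unfold js
  simp only [jacobiSym.one_right, Int.cast_one, one_mul]
  split_ifs <;> norm_num

theorem GG_nonneg {e : ℤ} (he : e = 1 ∨ e = -1 ∨ e = 2 ∨ e = -2) (a B N d : ℕ) {z : ℝ}
    (hz : 0 < z) (b : ℕ) : 0 ≤ GG e a B N d z b :=
  sum_nonneg fun m hm => term_nonneg he a B N d hz b m hm

/-- the numbers used -/
def WW (M d : ℕ) : Finset ℕ := (Icc 1 M).filter (fun m => Squarefree m ∧ Odd m ∧ m.Coprime d)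

/-- lower bound for one pair `(n, g)`, `g ∣ n` -/
theorem GG_ge {e : ℤ} (he : e = 1 ∨ e = -1 ∨ e = 2 ∨ e = -2) (a N0 M N d : ℕ) {z : ℝ}
    (hz : 0 < z) (hMN : N0 * M ^ 2 ≤ N) (hzN : ((N0 * M ^ 2 : ℕ) : ℝ) ^ 2 * z ≤ 1)
    (n g : ℕ) (hn : 1 ≤ n) (hnN : n ≤ N0) (hg : g ∣ n) (hno : Odd n) (hnd : n.Coprime d) :
    1 / 2 * Real.exp (-(2 * Real.pi)) * (1 / Real.sqrt ((n / g : ℕ) : ℝ)) *
      (∑ w ∈ WW M d, (1 : ℝ) / w) ≤ GG e a (N0 ^ 2) N d z (n * g) := by
  set c1 : ℝ := 1 / 2 * Real.exp (-(2 * Real.pi)) with hc1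
  have hc10 : 0 < c1 := by positivity
  have hg1 : 1 ≤ g := Nat.pos_of_dvd_of_pos hg hn
  obtain ⟨q, hq⟩ := hg
  have hq1 : 1 ≤ q := by
    rcases Nat.eq_zero_or_pos q with h | h
    · rw [h, mul_zero] at hq
      omega
    · exact h
  have hnq : n / g = q := by rw [hq, Nat.mul_div_cancel_left _ hg1]
  have hqn : q ≤ N0 := by
    calc q ≤ g * q := Nat.le_mul_of_pos_left _ hg1
      _ = n := hq.symm
      _ ≤ N0 := hnN
  have hN0 : 1 ≤ N0 := hn.trans hnN
  unfold GG
  set F : ℕ → ℝ := fun m => if (n * g) ∣ m ∧ m / (n * g) ≤ N then js (e * (d : ℤ)) m *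
      (1 / Real.sqrt ((m / (n * g) : ℕ) : ℝ) * IG a (((m / (n * g) : ℕ) : ℝ) ^ 2 * z)) else 0
    with hF
  -- the image
  have hinj : Set.InjOn (fun w : ℕ => (n * w) ^ 2) (WW M d : Finset ℕ) := by
    intro x _ y _ hxy
    have h1 : n * x = n * y := Nat.pow_left_injective (by norm_num : 2 ≠ 0) hxy
    exact Nat.eq_of_mul_eq_mul_left hn h1
  have hW : ∀ w ∈ WW M d, 1 ≤ w ∧ w ≤ M ∧ Odd w ∧ w.Coprime d := by
    intro w hw
    simp only [WW, mem_filter, mem_Icc] at hw
    exact ⟨hw.1.1, hw.1.2, hw.2.2.1, hw.2.2.2⟩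
  have hdiv : ∀ w : ℕ, n * g ∣ (n * w) ^ 2 ∧ (n * w) ^ 2 / (n * g) = q * w ^ 2 := by
    intro w
    have : (n * w) ^ 2 = (n * g) * (q * w ^ 2) := by
      calc (n * w) ^ 2 = n * n * w ^ 2 := by ring
        _ = n * (g * q) * w ^ 2 := by rw [← hq]
        _ = _ := by ring
    refine ⟨⟨q * w ^ 2, this⟩, ?_⟩
    rw [this]
    exact Nat.mul_div_cancel_left _ (Nat.mul_pos hn hg1)
  have hle : ∀ w ∈ WW M d, q * w ^ 2 ≤ N0 * M ^ 2 := fun w hw =>
    Nat.mul_le_mul hqn (Nat.pow_le_pow_left (hW w hw).2.1 2)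
  calc c1 * (1 / Real.sqrt ((n / g : ℕ) : ℝ)) * (∑ w ∈ WW M d, (1 : ℝ) / w)
      = ∑ w ∈ WW M d, c1 * (1 / Real.sqrt (q : ℝ)) * ((1 : ℝ) / w) := by
        rw [hnq, mul_sum]
    _ ≤ ∑ w ∈ WW M d, F ((n * w) ^ 2) := by
        apply sum_le_sum
        intro w hw
        obtain ⟨w1, w2, w3, w4⟩ := hW w hw
        have w0 : (0 : ℝ) < w := by exact_mod_cast w1
        have q0 : (0 : ℝ) < q := by exact_mod_cast hq1
        simp only [hF]
        rw [if_pos ⟨(hdiv w).1, by rw [(hdiv w).2]; exact (hle w hw).trans hMN⟩, (hdiv w).2]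
        have hj : js (e * (d : ℤ)) ((n * w) ^ 2) = 1 := by
          have := js_sq he d 1 (n * w) (hno.mul w3) one_ne_zero
          rw [one_mul, if_pos (Nat.Coprime.mul_left hnd w4)] at this
          rw [this]
          unfold js
          simp
        rw [hj, one_mul]
        have hs : Real.sqrt ((q * w ^ 2 : ℕ) : ℝ) = Real.sqrt q * w := by
          push_cast
          rw [Real.sqrt_mul (by positivity), Real.sqrt_sq w0.le]
        rw [hs]
        have hle1 : ((q * w ^ 2 : ℕ) : ℝ) ^ 2 * z ≤ 1 := by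
          refine le_trans (mul_le_mul_of_nonneg_right ?_ hz.le) hzN
          apply pow_le_pow_left₀ (by positivity)
          exact_mod_cast hle w hw
        have hIG : c1 ≤ IG a (((q * w ^ 2 : ℕ) : ℝ) ^ 2 * z) :=
          (IG_one a).trans (Pool.Agent.Q153.FM.Sq.IG_anti a (by positivity) hle1)
        have hsq : 0 < Real.sqrt (q : ℝ) := Real.sqrt_pos.2 q0
        calc c1 * (1 / Real.sqrt (q : ℝ)) * ((1 : ℝ) / w) = 1 / (Real.sqrt q * w) * c1 := by
              field_simp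
          _ ≤ _ := mul_le_mul_of_nonneg_left hIG (by positivity)
    _ = ∑ m ∈ (WW M d).image (fun w : ℕ => (n * w) ^ 2), F m :=
        (sum_image (f := F) (g := fun w : ℕ => (n * w) ^ 2) hinj).symm
    _ ≤ _ := by
        apply sum_le_sum_of_subset_of_nonneg
        · intro m hm
          rw [mem_image] at hm
          obtain ⟨w, hw, rfl⟩ := hm
          obtain ⟨w1, w2, w3, w4⟩ := hW w hw
          rw [mem_filter, mem_Icc]
          refine ⟨⟨Nat.one_le_pow _ _ (Nat.mul_pos hn w1), ?_⟩, (hno.mul w3).pow, ⟨n * w, by ring⟩⟩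
          calc (n * w) ^ 2 = w ^ 2 * n ^ 2 := by ring
            _ ≤ (N0 * M ^ 2) * N0 ^ 2 := by
                apply Nat.mul_le_mul
                · calc w ^ 2 ≤ M ^ 2 := Nat.pow_le_pow_left w2 2
                    _ ≤ N0 * M ^ 2 := Nat.le_mul_of_pos_left _ hN0
                · exact Nat.pow_le_pow_left hnN 2
            _ ≤ N * N0 ^ 2 := Nat.mul_le_mul_right _ hMN
        · intro m hm _
          exact term_nonneg he a (N0 ^ 2) N d hz (n * g) m hm

/-- the divisor sum -/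
theorem sum_div (A : ℝ) (n : ℕ) (hn : Squarefree n) :
    ∑ g ∈ n.divisors, A ^ g.primeFactors.card = (1 + A) ^ n.primeFactors.card := by
  have h := (ArithmeticFunction.IsMultiplicative.prodPrimeFactors
    (fun _ : ℕ => A)).prodPrimeFactors_one_add_of_squarefree hn
  have h1 : ∑ g ∈ n.divisors, A ^ g.primeFactors.card =
      ∑ g ∈ n.divisors, (ArithmeticFunction.prodPrimeFactors (fun _ : ℕ => A)) g := by
    apply sum_congr rfl
    intro g hg
    rw [ArithmeticFunction.prodPrimeFactors_apply (Nat.pos_of_mem_divisors hg).ne', prod_const]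
  rw [h1, ← h]
  rw [← prod_const]
  apply prod_congr rfl
  intro p hp
  have hpp := Nat.prime_of_mem_primeFactors hp
  rw [ArithmeticFunction.prodPrimeFactors_apply hpp.ne_zero, hpp.primeFactors, prod_singleton]

theorem sqrt_prod (n : ℕ) (hn : Squarefree n) :
    Real.sqrt (n : ℝ) = ∏ p ∈ n.primeFactors, Real.sqrt p := by
  conv_lhs => rw [← Nat.prod_primeFactors_of_squarefree hn]
  push_cast
  rw [Real.sqrt_prod _ (fun p _ => Nat.cast_nonneg p)]

theorem rr_eq (A : ℝ) (P K n : ℕ) (hn : Squarefree n) (hs : n.primeFactors ⊆ SP P K) :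
    rr A P K n = A ^ n.primeFactors.card / Real.sqrt n := by
  unfold rr
  rw [if_pos ⟨hn, hs⟩, prod_div_distrib, prod_const, sqrt_prod n hn]

theorem pair_sum (A : ℝ) (P K n : ℕ) (hn : Squarefree n) (hs : n.primeFactors ⊆ SP P K) :
    ∑ g ∈ n.divisors, rr A P K n * rr A P K g * (1 / Real.sqrt ((n / g : ℕ) : ℝ)) =
      qq (A ^ 2 + A) P K n := by
  have hn0 : 0 < n := Nat.pos_of_ne_zero hn.ne_zero
  have hn0' : (0 : ℝ) < n := by exact_mod_cast hn0
  have h1 : ∀ g ∈ n.divisors, rr A P K n * rr A P K g * (1 / Real.sqrt ((n / g : ℕ) : ℝ)) =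
      A ^ n.primeFactors.card / n * A ^ g.primeFactors.card := by
    intro g hg
    have hgd := Nat.dvd_of_mem_divisors hg
    have hg0 : (0 : ℝ) < g := by exact_mod_cast Nat.pos_of_mem_divisors hg
    rw [rr_eq A P K n hn hs, rr_eq A P K g (hn.squarefree_of_dvd hgd)
      ((Nat.primeFactors_mono hgd hn0.ne').trans hs), Nat.cast_div hgd hg0.ne',
      Real.sqrt_div hn0'.le]
    have hsn : Real.sqrt (n : ℝ) * Real.sqrt n = n := Real.mul_self_sqrt hn0'.le
    have hsn0 : Real.sqrt (n : ℝ) ≠ 0 := (Real.sqrt_pos.2 hn0').ne'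
    have hsg0 : Real.sqrt (g : ℝ) ≠ 0 := (Real.sqrt_pos.2 hg0).ne'
    calc A ^ n.primeFactors.card / Real.sqrt n * (A ^ g.primeFactors.card / Real.sqrt g) *
          (1 / (Real.sqrt n / Real.sqrt g))
        = A ^ n.primeFactors.card * A ^ g.primeFactors.card / (Real.sqrt n * Real.sqrt n) := by
          field_simp
      _ = _ := by rw [hsn]; ring
  rw [sum_congr rfl h1, ← mul_sum, sum_div A n hn, qq, if_pos ⟨hn, hs⟩,
    show A ^ 2 + A = A * (1 + A) by ring, mul_pow]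
  ring

theorem t_EBX (lbm : S_LBM) : S_EBX := by
  obtain ⟨cl, hcl, lbm⟩ := lbm 1 le_rfl
  set c1 : ℝ := 1 / 2 * Real.exp (-(2 * Real.pi)) with hc1
  have hc10 : 0 < c1 := by positivity
  refine ⟨c1 * cl, by positivity, ?_⟩
  intro e he a ha A P K N0 M N d z hA hAP hP hN0 hM hMN hd hz hzN
  have hd1 : 1 ≤ d := by
    rcases hd with ⟨j, hj⟩
    omega
  have hL : cl * PK 1 d * Real.log M ≤ ∑ w ∈ WW M d, (1 : ℝ) / w := by
    have h := lbm M d hM hd1
    simp only [Nat.cast_one, one_pow, pow_one] at h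
    unfold PK WW
    simpa only [Nat.cast_one] using h
  have hR := regroup A P K N0 (GG e a (N0 ^ 2) N d z)
  rw [EBS_eq, hR]
  have hnn : ∀ x ∈ Icc 1 N0 ×ˢ Icc 1 N0,
      0 ≤ rr A P K x.1 * rr A P K x.2 * GG e a (N0 ^ 2) N d z (x.1 * x.2) := fun x _ =>
    mul_nonneg (mul_nonneg (rr_nonneg hA _ _ _) (rr_nonneg hA _ _ _)) (GG_nonneg he a _ N d hz _)
  rw [sum_product]
  set L : ℝ := ∑ w ∈ WW M d, (1 : ℝ) / w with hLdef
  have hL0 : 0 ≤ L := sum_nonneg fun w _ => by positivity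
  have hqq : ∀ n, 0 ≤ qq (A ^ 2 + A) P K n := by
    intro n
    unfold qq
    split_ifs
    · positivity
    · exact le_rfl
  calc c1 * cl * PK 1 d * Real.log M *
        ∑ n ∈ (Icc 1 N0).filter (fun n => n.Coprime d), qq (A ^ 2 + A) P K n
      = c1 * (cl * PK 1 d * Real.log M) *
        ∑ n ∈ (Icc 1 N0).filter (fun n => n.Coprime d), qq (A ^ 2 + A) P K n := by ring
    _ ≤ c1 * L * ∑ n ∈ (Icc 1 N0).filter (fun n => n.Coprime d), qq (A ^ 2 + A) P K n :=
        mul_le_mul_of_nonneg_right (mul_le_mul_of_nonneg_left hL hc10.le)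
          (sum_nonneg fun n _ => hqq n)
    _ = ∑ n ∈ (Icc 1 N0).filter (fun n => n.Coprime d), c1 * L * qq (A ^ 2 + A) P K n := by
        rw [mul_sum]
    _ ≤ ∑ n ∈ (Icc 1 N0).filter (fun n => n.Coprime d),
        ∑ g ∈ Icc 1 N0, rr A P K n * rr A P K g * GG e a (N0 ^ 2) N d z (n * g) := by
        apply sum_le_sum
        intro n hn
        rw [mem_filter, mem_Icc] at hn
        obtain ⟨⟨hn1, hnN⟩, hnd⟩ := hn
        by_cases hs : Squarefree n ∧ n.primeFactors ⊆ SP P K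
        swap
        · have h0 : qq (A ^ 2 + A) P K n = 0 := by
            unfold qq
            rw [if_neg hs]
          rw [h0, mul_zero]
          exact sum_nonneg fun g _ =>
            mul_nonneg (mul_nonneg (rr_nonneg hA _ _ _) (rr_nonneg hA _ _ _))
              (GG_nonneg he a _ N d hz _)
        obtain ⟨hsf, hsp⟩ := hs
        have hno : Odd n := by
          rw [← Nat.not_even_iff_odd, even_iff_two_dvd]
          intro h2
          have := hsp (Nat.mem_primeFactors.2 ⟨Nat.prime_two, h2, by omega⟩)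
          simp only [SP, mem_filter, mem_Ioc] at this
          omega
        rw [← pair_sum A P K n hsf hsp, mul_sum]
        have hsub : n.divisors ⊆ Icc 1 N0 := by
          intro g hg
          rw [mem_Icc]
          exact ⟨Nat.pos_of_mem_divisors hg, (Nat.divisor_le hg).trans hnN⟩
        refine le_trans (sum_le_sum fun g hg => ?_) (sum_le_sum_of_subset_of_nonneg hsub
          fun g _ _ => mul_nonneg (mul_nonneg (rr_nonneg hA _ _ _) (rr_nonneg hA _ _ _))
              (GG_nonneg he a _ N d hz _))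
        have h1 := GG_ge he a N0 M N d hz hMN hzN n g hn1 hnN (Nat.dvd_of_mem_divisors hg) hno hnd
        calc c1 * L * (rr A P K n * rr A P K g * (1 / Real.sqrt ((n / g : ℕ) : ℝ)))
            = rr A P K n * rr A P K g * (c1 * (1 / Real.sqrt ((n / g : ℕ) : ℝ)) * L) := by ring
          _ ≤ _ := mul_le_mul_of_nonneg_left h1
              (mul_nonneg (rr_nonneg hA _ _ _) (rr_nonneg hA _ _ _))
    _ ≤ _ := by
        apply sum_le_sum_of_subset_of_nonneg (filter_subset _ _)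
        intro n _ _
        exact sum_nonneg fun g _ =>
            mul_nonneg (mul_nonneg (rr_nonneg hA _ _ _) (rr_nonneg hA _ _ _))
              (GG_nonneg he a _ N d hz _)

end Pool.Agent.Q257.EX
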