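import Pool.Agent.Q122.EX.Stm

set_option autoImplicit false

/-! Project EX: job GDX. -/

namespace Pool.Agent.Q257.EX

open Finset

/-- multiples in an interval -/
theorem card_mult (y h m : ℕ) (hm : 0 < m) :
    (((Ioc y (y + h)).filter (fun d => m ∣ d)).card : ℝ) ≤ h / m + 1 := by
  have h1 : ((Ioc y (y + h)).filter (fun d => m ∣ d)).card ≤ (y + h) / m - y / m := by
    have h2 : (Ioc (y / m) ((y + h) / m)).card = (y + h) / m - y / m := Nat.card_Ioc _ _
    rw [← h2]
    refine card_le_card_of_injOn (fun d => d / m) ?_ ?_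
    · intro d hd
      simp only [coe_filter, mem_Ioc, Set.mem_setOf_eq] at hd
      obtain ⟨⟨h3, h4⟩, k, rfl⟩ := hd
      simp only [coe_Ioc, Set.mem_Ioc]
      rw [Nat.mul_div_cancel_left _ hm]
      constructor
      · rw [Nat.div_lt_iff_lt_mul hm]
        linarith [Nat.mul_comm m k]
      · rw [Nat.le_div_iff_mul_le hm]
        linarith [Nat.mul_comm m k]
    · intro d hd d' hd' hdd
      simp only [coe_filter, mem_Ioc, Set.mem_setOf_eq] at hd hd'
      obtain ⟨_, k, rfl⟩ := hd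
      obtain ⟨_, k', rfl⟩ := hd'
      simp only at hdd
      rw [Nat.mul_div_cancel_left _ hm, Nat.mul_div_cancel_left _ hm] at hdd
      rw [hdd]
  have hm' : (0 : ℝ) < m := by exact_mod_cast hm
  have h3 : y / m ≤ (y + h) / m := Nat.div_le_div_right (by omega)
  have h4 : (((Ioc y (y + h)).filter (fun d => m ∣ d)).card : ℝ) ≤
      (((y + h) / m : ℕ) : ℝ) - ((y / m : ℕ) : ℝ) := by
    rw [← Nat.cast_sub h3]
    exact_mod_cast h1
  have h5 : (((y + h) / m : ℕ) : ℝ) ≤ ((y + h : ℕ) : ℝ) / m := Nat.cast_div_le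
  have h6 : (y : ℝ) / m < ((y / m : ℕ) : ℝ) + 1 := by
    rw [div_lt_iff₀ hm']
    have := Nat.lt_div_mul_add (a := y) hm
    have h7 : (y : ℝ) < ((y / m : ℕ) : ℝ) * m + m := by exact_mod_cast this
    linarith
  push_cast at h5
  rw [add_div] at h5
  linarith

theorem t_GDX : Pool.Agent.Q122.EX.S_GDX := by
  intro S f hS y h
  have e1 : ∀ d : ℕ, ∏ p ∈ S.filter (fun p => p ∣ d), (1 + f p) =
      ∑ T ∈ S.powerset, if (∏ p ∈ T, p) ∣ d then ∏ p ∈ T, f p else 0 := by
    intro d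
    rw [prod_one_add, ← sum_filter]
    apply sum_congr _ (fun _ _ => rfl)
    ext T
    simp only [mem_powerset, mem_filter, subset_iff]
    constructor
    · intro hT
      refine ⟨fun p hp => (hT hp).1, ?_⟩
      refine Finset.prod_primes_dvd d (fun p hp => ?_) fun p hp => (hT hp).2
      exact (hS p (hT hp).1).1.prime
    · rintro ⟨hT, hd⟩ p hp
      exact ⟨hT hp, (dvd_prod_of_mem _ hp).trans hd⟩
  simp only [e1]
  rw [sum_comm]
  have e2 : ∀ T ∈ S.powerset, ∑ d ∈ Ioc y (y + h), (if (∏ p ∈ T, p) ∣ d then ∏ p ∈ T, f p else 0) ≤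
      (h / ((∏ p ∈ T, p : ℕ) : ℝ) + 1) * ∏ p ∈ T, f p := by
    intro T hT
    rw [mem_powerset] at hT
    rw [← sum_filter, sum_const, nsmul_eq_mul]
    apply mul_le_mul_of_nonneg_right
    · apply card_mult
      exact prod_pos fun p hp => (hS p (hT hp)).1.pos
    · exact prod_nonneg fun p hp => (hS p (hT hp)).2
  refine (sum_le_sum e2).trans (le_of_eq ?_)
  have e3 : ∏ p ∈ S, (1 + f p / p) = ∑ T ∈ S.powerset, ∏ p ∈ T, (f p / p) := prod_one_add _
  have e4 : ∏ p ∈ S, (1 + f p) = ∑ T ∈ S.powerset, ∏ p ∈ T, f p := prod_one_add _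
  rw [e3, e4, mul_sum, ← sum_add_distrib]
  apply sum_congr rfl
  intro T _
  rw [prod_div_distrib]
  push_cast
  ring

end Pool.Agent.Q257.EX
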