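import Pool.Agent.Q122.EX.Stm
import Pool.Agent.Erdos456.Mertens

set_option autoImplicit false

/-! Project EX: job MER. -/

namespace Pool.Agent.Q257.EX

open Finset Pool.Agent.Q122.EX Pool.Agent.Erdos456.Mert

theorem SP_sum (P K : ℕ) (hK : 1 ≤ K) (hP : 1 ≤ P) :
    ∑ p ∈ SP P K, (1 : ℝ) / p = ∑ p ∈ PP (P ^ K), (1 : ℝ) / p - ∑ p ∈ PP P, (1 : ℝ) / p := by
  have hle : P ≤ P ^ K := Nat.le_self_pow (by omega) P
  have hu : PP (P ^ K) = PP P ∪ SP P K := by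
    ext p
    simp only [PP, SP, mem_union, mem_filter, mem_Icc, mem_Ioc]
    constructor
    · rintro ⟨⟨h1, h2⟩, h3⟩
      by_cases h : p ≤ P
      · exact Or.inl ⟨⟨h1, h⟩, h3⟩
      · exact Or.inr ⟨⟨by omega, h2⟩, h3⟩
    · rintro (⟨⟨h1, h2⟩, h3⟩ | ⟨⟨h1, h2⟩, h3⟩)
      · exact ⟨⟨h1, h2.trans hle⟩, h3⟩
      · exact ⟨⟨by omega, h2⟩, h3⟩
  have hd : Disjoint (PP P) (SP P K) := by
    rw [disjoint_left]
    intro p h1 h2
    simp only [PP, SP, mem_filter, mem_Icc, mem_Ioc] at h1 h2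
    omega
  rw [hu, sum_union hd]
  ring

theorem t_MER : S_MER := by
  obtain ⟨C0, hC⟩ := mertens_inv
  have hC0 : 0 ≤ C0 := (abs_nonneg _).trans (hC 3 le_rfl)
  obtain ⟨K, hK⟩ := exists_nat_ge (Real.exp (2 * C0 + 1))
  have hexp : 1 ≤ Real.exp (2 * C0 + 1) := Real.one_le_exp (by positivity)
  have hK1 : (1 : ℝ) ≤ K := hexp.trans hK
  have hK1' : 1 ≤ K := by exact_mod_cast hK1
  have hlogK : 2 * C0 + 1 ≤ Real.log K := by
    rw [← Real.log_exp (2 * C0 + 1)]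
    exact Real.log_le_log (Real.exp_pos _) hK
  refine ⟨K, Real.log K + 2 * C0, hK1', by linarith, ?_⟩
  intro P hP
  have hP1 : 1 ≤ P := by omega
  have hPK : 3 ≤ P ^ K := hP.trans (Nat.le_self_pow (by omega) P)
  have h1 := abs_le.1 (hC P hP)
  have h2 := abs_le.1 (hC (P ^ K) hPK)
  have hlogP : 0 < Real.log P := Real.log_pos (by exact_mod_cast (by omega : 1 < P))
  have e : Real.log (Real.log ((P ^ K : ℕ) : ℝ)) = Real.log K + Real.log (Real.log P) := by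
    push_cast
    rw [Real.log_pow, Real.log_mul (by positivity) hlogP.ne']
  rw [SP_sum P K hK1' hP1]
  rw [e] at h2
  constructor <;> linarith [h1.1, h1.2, h2.1, h2.2]

end Pool.Agent.Q257.EX
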