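import Pool.Agent.Q122.EX.Stm

set_option autoImplicit false

/-! Project EX: job RSQ. -/

namespace Pool.Agent.Q257.EX

open Finset Pool.Agent.Q122.MB Pool.Agent.Q122.EX Pool.Agent.H306R2.RZ

theorem rr_nonneg {A : ℝ} (hA : 0 ≤ A) (P K n : ℕ) : 0 ≤ rr A P K n := by
  unfold rr
  split_ifs
  · exact prod_nonneg fun p _ => by positivity
  · exact le_rfl

theorem rr_le_one {A : ℝ} (hA : 0 ≤ A) {P : ℕ} (hAP : A ^ 2 ≤ P) (K n : ℕ) :
    rr A P K n ≤ 1 := by
  unfold rr
  split_ifs with h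
  · apply prod_le_one (fun p _ => by positivity)
    intro p hp
    have hp' := h.2 hp
    simp only [SP, mem_filter, mem_Ioc] at hp'
    have h1 : (P : ℝ) ≤ p := by exact_mod_cast hp'.1.1.le
    have h2 : A ≤ Real.sqrt p := Real.le_sqrt_of_sq_le (hAP.trans h1)
    have h3 : (0 : ℝ) < Real.sqrt p := Real.sqrt_pos.2 (by exact_mod_cast hp'.2.pos)
    rw [div_le_one h3]
    exact h2
  · exact zero_le_one

theorem b2_nonneg {A : ℝ} (hA : 0 ≤ A) (P K N m : ℕ) : 0 ≤ b2 A P K N m :=
  sum_nonneg fun _ _ => mul_nonneg (rr_nonneg hA _ _ _) (rr_nonneg hA _ _ _)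

/-- regrouping a double sum over `n₁, n₂ ≤ N` by the product -/
theorem regroup (A : ℝ) (P K N : ℕ) (F : ℕ → ℝ) :
    ∑ m ∈ Icc 1 (N ^ 2), b2 A P K N m * F m =
      ∑ x ∈ Icc 1 N ×ˢ Icc 1 N, rr A P K x.1 * rr A P K x.2 * F (x.1 * x.2) := by
  have hm : ∀ x ∈ Icc 1 N ×ˢ Icc 1 N, x.1 * x.2 ∈ Icc 1 (N ^ 2) := by
    rintro ⟨a, b⟩ h
    simp only [mem_product, mem_Icc] at h ⊢
    constructor
    · exact Nat.mul_pos h.1.1 h.2.1
    · rw [sq]
      exact Nat.mul_le_mul h.1.2 h.2.2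
  rw [← sum_fiberwise_of_maps_to hm]
  apply sum_congr rfl
  intro m hm
  rw [mem_Icc] at hm
  unfold b2
  rw [sum_mul]
  have hset : (Icc 1 N ×ˢ Icc 1 N).filter (fun x => x.1 * x.2 = m) =
      m.divisorsAntidiagonal.filter (fun x => x.1 ≤ N ∧ x.2 ≤ N) := by
    ext ⟨a, b⟩
    simp only [mem_filter, mem_product, mem_Icc, Nat.mem_divisorsAntidiagonal]
    constructor
    · rintro ⟨⟨⟨h1, h2⟩, h3, h4⟩, h5⟩
      exact ⟨⟨h5, by omega⟩, h2, h4⟩
    · rintro ⟨⟨h1, h2⟩, h3, h4⟩
      have ha : a ≠ 0 := by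
        rintro rfl
        rw [zero_mul] at h1
        omega
      have hb : b ≠ 0 := by
        rintro rfl
        rw [mul_zero] at h1
        omega
      exact ⟨⟨⟨by omega, h3⟩, by omega, h4⟩, h1⟩
  rw [hset]
  apply sum_congr rfl
  intro x hx
  rw [mem_filter, Nat.mem_divisorsAntidiagonal] at hx
  rw [hx.1.1]

theorem t_RSQ : S_RSQ := by
  intro A P K N hA hAP hP hN
  refine ⟨fun e d => ?_, fun m => b2_nonneg hA P K N m, ?_⟩
  · have h1 : RB e (b2 A P K N) (N ^ 2) d = ∑ m ∈ Icc 1 (N ^ 2), b2 A P K N m *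
        (if Odd m then js (e * (d : ℤ)) m else 0) := by
      unfold RB
      rw [sum_filter]
      apply sum_congr rfl
      intro m _
      split_ifs <;> simp
    have h2 : RS A P K e N d = ∑ n ∈ Icc 1 N, rr A P K n *
        (if Odd n then js (e * (d : ℤ)) n else 0) := by
      unfold RS
      rw [sum_filter]
      apply sum_congr rfl
      intro m _
      split_ifs <;> simp
    rw [h1, regroup, h2, sq, sum_mul_sum, sum_product]
    apply sum_congr rfl
    intro a ha
    apply sum_congr rfl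
    intro b hb
    have hj : (if Odd (a * b) then js (e * (d : ℤ)) (a * b) else 0) =
        (if Odd a then js (e * (d : ℤ)) a else 0) * (if Odd b then js (e * (d : ℤ)) b else 0) := by
      by_cases h1 : Odd a
      · by_cases h2 : Odd b
        · rw [if_pos h1, if_pos h2, if_pos (h1.mul h2)]
          unfold js
          rw [mem_Icc] at ha hb
          rw [jacobiSym.mul_right' _ (by omega) (by omega)]
          push_cast
          ring
        · rw [if_neg h2, if_neg (fun h => h2 (Nat.odd_mul.1 h).2), mul_zero]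
      · rw [if_neg h1, if_neg (fun h => h1 (Nat.odd_mul.1 h).1), zero_mul]
    simp only
    rw [hj]
    ring
  · have h1 := regroup A P K N (fun _ => 1)
    simp only [mul_one] at h1
    rw [h1]
    calc ∑ x ∈ Icc 1 N ×ˢ Icc 1 N, rr A P K x.1 * rr A P K x.2
        ≤ ∑ x ∈ Icc 1 N ×ˢ Icc 1 N, (1 : ℝ) := by
          apply sum_le_sum
          intro x _
          exact mul_le_one₀ (rr_le_one hA hAP K _) (rr_nonneg hA _ _ _) (rr_le_one hA hAP K _)
      _ = ((N ^ 2 : ℕ) : ℝ) := by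
          rw [sum_const, card_product, Nat.card_Icc]
          simp [sq]

end Pool.Agent.Q257.EX
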